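import Pool.Agent.X175.Cactus.B

set_option autoImplicit false

/-! # The conjectured description of the finite subgroups of cactus groups is false

`J₈ × J₂` embeds into `J₁₀`, so the group `(D₈ ≀ C₂) × C₂` of order 256 embeds into `J₁₀`, whereas
all groups `W(r₁, …, r_s)` with `r₁ ⋯ r_s ≤ 5` have order at most 128. -/

namespace Pool.Agent.Results.MP_2b0b8a_al.EmbeddingFailsForTen

open Pool.Agent.X175.Cactus

/-- A finite group `G` of order 256 embeds into the cactus group `J₁₀`, but into none of the groups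
`W(r₁, …, r_s)` with all `r_i ≥ 2` and `r₁ ⋯ r_s ≤ 10/2`. -/
theorem result : ∃ (G : Type) (_ : Group G) (_ : Finite G), Nat.card G = 256 ∧
    (∃ f : G →* J 10, Function.Injective f) ∧
    ¬ ∃ l : List ℕ, (∀ r ∈ l, 2 ≤ r) ∧ 2 * l.prod ≤ 10 ∧
      ∃ f : G →* W l, Function.Injective f :=
  ⟨GG, inferInstance, inferInstance, card_GG, ⟨emb, emb_inj⟩,
    fun ⟨l, h2, hp, f, hf⟩ => no_emb l h2 hp f hf⟩

end Pool.Agent.Results.MP_2b0b8a_al.EmbeddingFailsForTen
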